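import Pool.Agent.Q170.UM.StmM

/-!
# UM-CAS (helper225): the cases of an atypical intersection
-/

set_option autoImplicit false

namespace Pool.Agent.Q225.UM

open Pool.Agent.Q170.UM

theorem t_CAS : S_CAS := by
  intro n k r' M
  have hpos : 0 < Module.finrank ℤ M → ∃ m ∈ M, m ≠ 0 := by
    intro h
    have : Nontrivial M := Module.nontrivial_of_finrank_pos h
    obtain ⟨m, hm⟩ := exists_ne (0 : M)
    exact ⟨m, m.2, fun h => hm (Subtype.ext h)⟩
  constructor
  · intro h
    by_cases h0 : Module.finrank ℤ M = 0
    · left; omega
    · by_cases h1 : Module.finrank ℤ M = 1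
      · right; left
        exact ⟨by omega, hpos (by omega)⟩
      · right; right
        have b := Module.finBasis ℤ M
        have hb := b.linearIndependent
        let i0 : Fin (Module.finrank ℤ M) := ⟨0, by omega⟩
        let i1 : Fin (Module.finrank ℤ M) := ⟨1, by omega⟩
        have h01 : i0 ≠ i1 := by simp [i0, i1]
        refine ⟨b i0, (b i0).2, b i1, (b i1).2, fun x y hxy => ?_⟩
        have h2 : x • b i0 + y • b i1 = 0 := by
          apply Subtype.ext
          simpa using hxy
        have h4 : LinearIndependent ℤ ![b i0, b i1] := by
          have h5 := hb.comp ![i0, i1] (by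
            intro a c hac
            fin_cases a <;> fin_cases c <;> simp_all)
          have h6 : (b ∘ ![i0, i1]) = ![b i0, b i1] := by
            funext a
            fin_cases a <;> rfl
          rwa [h6] at h5
        exact LinearIndependent.pair_iff.1 h4 x y h2
  · intro h
    by_cases h0 : Module.finrank ℤ M = 0
    · left; omega
    · right; exact hpos (by omega)

end Pool.Agent.Q225.UM
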